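import Pool.Agent.Q196.OP.Stm

/-!
# Project OP (helper196): exposed faces and contact sets
-/

set_option autoImplicit false

namespace Pool.Agent.Q275.OP

open Set Metric Topology Filter
open Q196.OP

lemma mem_Q (p : I → V) (i : I) : p i ∈ Q p := subset_convexHull ℝ _ (mem_range_self i)

lemma le_on_Q {p : I → V} {l : V} {m : ℝ} (h : ∀ i, inner ℝ l (p i) ≤ m) {x : V} (hx : x ∈ Q p) :
    inner ℝ l x ≤ m := by
  have hc : Convex ℝ {y : V | inner ℝ l y ≤ m} :=
    convex_halfSpace_le (LinearMap.isLinear (innerₛₗ ℝ l)) m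
  have hs : Q p ⊆ {y : V | inner ℝ l y ≤ m} := convexHull_min (by rintro _ ⟨i, rfl⟩; exact h i) hc
  exact hs hx

/-- the index set of an exposed face is a contact set or everything -/
lemma isCon_idx {p : I → V} (hp : Good p) {F : Set V} (hF : IsExposed ℝ (Q p) F) :
    IsCon p {i | p i ∈ F} ∨ {i | p i ∈ F} = univ := by
  rcases F.eq_empty_or_nonempty with rfl | hne
  · left
    refine ⟨0, fun i => by simp, ?_⟩
    ext i
    simp [Q196.OP.Con]
  · obtain ⟨l, hl⟩ := hF hne
    set u : V := (InnerProductSpace.toDual ℝ V).symm l with hu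
    have hlu : ∀ x, l x = inner ℝ u x := fun x => (InnerProductSpace.toDual_symm_apply).symm
    by_cases hall : ∀ i, inner ℝ u (p i) = 0
    · right
      have hu0 : u = 0 := hp.2 u hall
      ext i
      simp only [mem_univ, iff_true]
      show p i ∈ F
      rw [hl]
      refine ⟨mem_Q p i, fun y _ => ?_⟩
      rw [hlu, hlu, hu0, inner_zero_left, inner_zero_left]
    · left
      obtain ⟨j, hj⟩ : ∃ j, 0 < inner ℝ u (p j) := by
        push Not at hall
        obtain ⟨i, hi⟩ := hall
        rcases lt_or_gt_of_ne hi with h | h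
        · obtain ⟨j, hj⟩ := hp.1 i
          exact ⟨j, by rw [hj, inner_neg_right]; linarith⟩
        · exact ⟨i, h⟩
      obtain ⟨x0, hx0⟩ := hne
      have hx0' := hx0
      rw [hl] at hx0'
      obtain ⟨hx0Q, hx0m⟩ := hx0'
      set m : ℝ := l x0 with hm
      have hmp : 0 < m := by
        have := hx0m _ (mem_Q p j)
        rw [hlu (p j)] at this
        linarith
      have hmem : ∀ i, p i ∈ F ↔ inner ℝ u (p i) = m := by
        intro i
        rw [← hlu]
        constructor
        · intro h
          rw [hl] at h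
          exact le_antisymm (hx0m _ (mem_Q p i)) (h.2 _ hx0Q)
        · intro h
          rw [hl]
          exact ⟨mem_Q p i, fun y hy => by rw [h]; exact hx0m y hy⟩
      refine ⟨m⁻¹ • u, fun i => ?_, ?_⟩
      · rw [real_inner_smul_left, ← hlu, inv_mul_le_iff₀ hmp, mul_one]
        exact hx0m _ (mem_Q p i)
      · ext i
        show inner ℝ (m⁻¹ • u) (p i) = 1 ↔ p i ∈ F
        rw [real_inner_smul_left, hmem, inv_mul_eq_iff_eq_mul₀ hmp.ne', mul_one]

/-- an exposed face is the convex hull of its points of the family -/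
lemma face_eq {p : I → V} {F : Set V} (hF : IsExposed ℝ (Q p) F) : F = convexHull ℝ (p '' {i | p i ∈ F}) := by
  have hQc : IsCompact (Q p) := (finite_range p).isCompact_convexHull ℝ
  have hFc : IsCompact F := hF.isCompact hQc
  have hFv : Convex ℝ F := hF.convex (convex_convexHull ℝ _)
  apply Subset.antisymm
  · have h1 : F.extremePoints ℝ ⊆ p '' {i | p i ∈ F} := by
      intro x hx
      have h2 : x ∈ (Q p).extremePoints ℝ := hF.isExtreme.extremePoints_subset_extremePoints hx
      obtain ⟨i, rfl⟩ := extremePoints_convexHull_subset h2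
      exact ⟨i, hx.1, rfl⟩
    have h3 : IsClosed (convexHull ℝ (p '' {i | p i ∈ F})) :=
      ((toFinite {i | p i ∈ F}).image p).isClosed_convexHull ℝ
    calc F = closure (convexHull ℝ (F.extremePoints ℝ)) := (closure_convexHull_extremePoints hFc hFv).symm
      _ ⊆ convexHull ℝ (p '' {i | p i ∈ F}) := closure_minimal (convexHull_mono h1) h3
  · exact convexHull_min (by rintro _ ⟨i, hi, rfl⟩; exact hi) hFv

/-- every contact set comes from an exposed face -/
lemma exists_face {p : I → V} {S : Set I} (hS : IsCon p S ∨ S = univ) :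
    ∃ F : Set V, IsExposed ℝ (Q p) F ∧ {i | p i ∈ F} = S := by
  rcases hS with ⟨l, hl, rfl⟩ | rfl
  · rcases (Con p l).eq_empty_or_nonempty with he | ⟨i0, hi0⟩
    · exact ⟨∅, isExposed_empty, by rw [he]; simp⟩
    · have hi0' : inner ℝ l (p i0) = 1 := hi0
      refine ⟨{x ∈ Q p | inner ℝ l x = 1}, fun _ => ⟨InnerProductSpace.toDual ℝ V l, ?_⟩, ?_⟩
      · ext x
        constructor
        · rintro ⟨hx, h1⟩
          refine ⟨hx, fun y hy => ?_⟩
          rw [InnerProductSpace.toDual_apply_apply, InnerProductSpace.toDual_apply_apply, h1]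
          exact le_on_Q hl hy
        · rintro ⟨hx, h1⟩
          refine ⟨hx, le_antisymm (le_on_Q hl hx) ?_⟩
          have := h1 _ (mem_Q p i0)
          rw [InnerProductSpace.toDual_apply_apply, InnerProductSpace.toDual_apply_apply, hi0'] at this
          exact this
      · ext i
        constructor
        · intro h
          exact h.2
        · intro h
          exact ⟨mem_Q p i, h⟩
  · refine ⟨Q p, IsExposed.refl _, ?_⟩
    ext i
    simp only [mem_univ, iff_true]
    exact mem_Q p i

/-- **the lattice of exposed faces is the lattice of contact sets** -/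
theorem t_ISO : S_ISO := by
  intro p hp
  set f : {F : Set V // IsExposed ℝ (Q p) F} → Fa p := fun F => ⟨{i | p i ∈ F.1}, isCon_idx hp F.2⟩ with hf
  have hle : ∀ a b, f a ≤ f b ↔ a ≤ b := by
    intro a b
    constructor
    · intro h
      have h1 : {i | p i ∈ a.1} ⊆ {i | p i ∈ b.1} := h
      show a.1 ⊆ b.1
      rw [face_eq a.2, face_eq b.2]
      exact convexHull_mono (image_mono h1)
    · intro h
      have h1 : a.1 ⊆ b.1 := h
      show {i | p i ∈ a.1} ⊆ {i | p i ∈ b.1}
      exact fun i hi => h1 hi
  refine ⟨RelIso.ofSurjective (OrderEmbedding.ofMapLEIff f hle) ?_⟩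
  rintro ⟨S, hS⟩
  obtain ⟨F, hF, hFS⟩ := exists_face hS
  exact ⟨⟨F, hF⟩, Subtype.ext hFS⟩

end Pool.Agent.Q275.OP
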