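import Pool.Agent.Q196.OP.Stm

/-!
# Project OP (helper196): a crossing of two hyperplanes is not a submanifold
-/

set_option autoImplicit false

namespace Pool.Agent.Q275.OP

open Set Metric Topology Filter
open Q196.OP

/-- the derivative of a curve in a subspace is in the subspace -/
lemma deriv_mem {f : ℝ → V} {f' : V} {F : Submodule ℝ V} (h : HasDerivAt f f' 0) (hf : ∀ᶠ t in 𝓝 (0 : ℝ), f t ∈ F) :
    f' ∈ F := by
  have h1 := hasDerivAt_iff_tendsto_slope.1 h
  have hcl : IsClosed (F : Set V) := Submodule.closed_of_finiteDimensional F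
  refine hcl.mem_of_tendsto h1 ?_
  have h0 : f 0 ∈ F := hf.self_of_nhds
  filter_upwards [hf.filter_mono nhdsWithin_le_nhds] with t ht
  rw [slope_def_module]
  exact F.smul_mem _ (F.sub_mem ht h0)

/-- the circle in the direction `u` -/
noncomputable def ga (w u : V) (t : ℝ) : V := Real.cos t • w + Real.sin t • u

lemma ga_zero (w u : V) : ga w u 0 = w := by simp [ga]

lemma ga_cont (w u : V) : Continuous (ga w u) := by
  unfold ga
  exact (Real.continuous_cos.smul continuous_const).add (Real.continuous_sin.smul continuous_const)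

lemma ga_deriv (w u : V) : HasDerivAt (ga w u) u 0 := by
  have h1 := ((Real.hasDerivAt_cos 0).smul_const w).add ((Real.hasDerivAt_sin 0).smul_const u)
  rw [Real.sin_zero, Real.cos_zero, neg_zero, zero_smul, one_smul, zero_add] at h1
  exact h1

lemma ga_norm {w u : V} (h : inner ℝ u w = 0) (hn : ‖u‖ = ‖w‖) (t : ℝ) : ‖ga w u t‖ = ‖w‖ := by
  have h2 : ‖ga w u t‖ ^ 2 = ‖w‖ ^ 2 := by
    unfold ga
    rw [norm_add_sq_real, norm_smul, norm_smul, real_inner_smul_left, real_inner_smul_right,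
      real_inner_comm, h, hn, mul_pow, mul_pow, Real.norm_eq_abs, Real.norm_eq_abs, sq_abs, sq_abs]
    have := Real.sin_sq_add_cos_sq t
    linear_combination ‖w‖ ^ 2 * this
  exact (pow_left_inj₀ (norm_nonneg _) (norm_nonneg _) two_ne_zero).1 h2

lemma ga_inner {w u a : V} (h : inner ℝ a w = 0) (h2 : inner ℝ a u = 0) (t : ℝ) : inner ℝ a (ga w u t) = 0 := by
  unfold ga
  rw [inner_add_right, real_inner_smul_right, real_inner_smul_right, h, h2]
  ring

/-- the arcs are in the connected component -/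
lemma ga_mem {C : Set V} {w u : V} (h : ∀ᶠ t in 𝓝 (0 : ℝ), ga w u t ∈ C) :
    ∀ᶠ t in 𝓝 (0 : ℝ), ga w u t ∈ connectedComponentIn C w := by
  obtain ⟨ε, hε, h1⟩ := Metric.eventually_nhds_iff_ball.1 h
  filter_upwards [ball_mem_nhds (0 : ℝ) hε] with t ht
  have hpre : IsPreconnected (ga w u '' ball 0 ε) :=
    (convex_ball (0 : ℝ) ε).isPreconnected.image _ (ga_cont w u).continuousOn
  have hw : w ∈ ga w u '' ball 0 ε := ⟨0, mem_ball_self hε, ga_zero w u⟩
  exact hpre.subset_connectedComponentIn hw (by rintro _ ⟨s, hs, rfl⟩; exact h1 s hs) ⟨t, ht, rfl⟩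

/-- **a crossing of two hyperplanes is not a submanifold** -/
theorem t_SUBM : S_SUBM := by
  intro C w a b u v _ hC haw hbw huw hvw hun hvn hau hbv hav hbu hM
  have hwC : w ∈ C := by
    rw [hC.self_of_nhds]
    exact ⟨rfl, by rw [haw, zero_mul]⟩
  have hwM : w ∈ connectedComponentIn C w := mem_connectedComponentIn hwC
  have t1 : Tendsto (ga w u) (𝓝 0) (𝓝 w) := by
    have := (ga_cont w u).tendsto 0
    rwa [ga_zero] at this
  have t2 : Tendsto (ga w v) (𝓝 0) (𝓝 w) := by
    have := (ga_cont w v).tendsto 0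
    rwa [ga_zero] at this
  have m1 := ga_mem (C := C) (w := w) (u := u) (by
    filter_upwards [t1.eventually hC] with t ht
    rw [ht]
    exact ⟨ga_norm huw hun t, by rw [ga_inner haw hau, zero_mul]⟩)
  have m2 := ga_mem (C := C) (w := w) (u := v) (by
    filter_upwards [t2.eventually hC] with t ht
    rw [ht]
    exact ⟨ga_norm hvw hvn t, by rw [ga_inner hbw hbv, mul_zero]⟩)
  obtain ⟨φ, F, hws, hφ, hψ, hF⟩ := hM w hwM
  have hsrc : φ.source ∈ 𝓝 w := φ.open_source.mem_nhds hws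
  have hwt : φ w ∈ φ.target := φ.map_source hws
  have htgt : φ.target ∈ 𝓝 (φ w) := φ.open_target.mem_nhds hwt
  have dφ : HasFDerivAt φ (fderiv ℝ φ w) w :=
    ((hφ.contDiffAt hsrc).differentiableAt (by norm_num)).hasFDerivAt
  have dψ : HasFDerivAt φ.symm (fderiv ℝ φ.symm (φ w)) (φ w) :=
    ((hψ.contDiffAt htgt).differentiableAt (by norm_num)).hasFDerivAt
  have hcomp : ∀ x : V, fderiv ℝ φ.symm (φ w) (fderiv ℝ φ w x) = x := by
    have h1 : HasFDerivAt (φ.symm ∘ φ) ((fderiv ℝ φ.symm (φ w)).comp (fderiv ℝ φ w)) w := dψ.comp w dφ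
    have h2 : (φ.symm ∘ φ) =ᶠ[𝓝 w] id := by
      filter_upwards [hsrc] with x hx
      exact φ.left_inv hx
    have h3 : HasFDerivAt (φ.symm ∘ φ) (ContinuousLinearMap.id ℝ V) w :=
      (hasFDerivAt_id w).congr_of_eventuallyEq h2
    have h4 := h1.unique h3
    intro x
    have := congrArg (fun T : V →L[ℝ] V => T x) h4
    exact this
  -- points of M near w are mapped into F
  have hMF : ∀ x ∈ connectedComponentIn C w, x ∈ φ.source → φ x ∈ F := by
    intro x hx hxs
    have : φ x ∈ φ '' (connectedComponentIn C w ∩ φ.source) := ⟨x, ⟨hx, hxs⟩, rfl⟩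
    rw [hF] at this
    exact this.1
  have hu : fderiv ℝ φ w u ∈ F := by
    have dφ' : HasFDerivAt φ (fderiv ℝ φ w) (ga w u 0) := by rw [ga_zero]; exact dφ
    refine deriv_mem (dφ'.comp_hasDerivAt 0 (ga_deriv w u)) ?_
    filter_upwards [m1, t1.eventually hsrc] with t h1 h2
    exact hMF _ h1 h2
  have hv : fderiv ℝ φ w v ∈ F := by
    have dφ' : HasFDerivAt φ (fderiv ℝ φ w) (ga w v 0) := by rw [ga_zero]; exact dφ
    refine deriv_mem (dφ'.comp_hasDerivAt 0 (ga_deriv w v)) ?_
    filter_upwards [m2, t2.eventually hsrc] with t h1 h2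
    exact hMF _ h1 h2
  have hs : fderiv ℝ φ w (u + v) ∈ F := by
    rw [map_add]
    exact F.add_mem hu hv
  set s : V := fderiv ℝ φ w (u + v) with hsdef
  have dline : HasDerivAt (fun t : ℝ => φ w + t • s) s 0 := by
    have h1 := ((hasDerivAt_id (0 : ℝ)).smul_const s).const_add (φ w)
    rw [one_smul] at h1
    exact h1
  have tline : Tendsto (fun t : ℝ => φ w + t • s) (𝓝 0) (𝓝 (φ w)) := by
    have := dline.continuousAt.tendsto
    simpa using this
  have dq : HasDerivAt (fun t : ℝ => φ.symm (φ w + t • s)) (u + v) 0 := by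
    have dψ' : HasFDerivAt φ.symm (fderiv ℝ φ.symm (φ w)) (φ w + (0 : ℝ) • s) := by
      rw [zero_smul, add_zero]; exact dψ
    have h1 := dψ'.comp_hasDerivAt 0 dline
    rw [hsdef, hcomp] at h1
    exact h1
  have tq : Tendsto (fun t : ℝ => φ.symm (φ w + t • s)) (𝓝 0) (𝓝 w) := by
    have h1 := dq.continuousAt.tendsto
    simpa [φ.left_inv hws] using h1
  have hq : ∀ᶠ t in 𝓝 (0 : ℝ), φ.symm (φ w + t • s) ∈ C := by
    filter_upwards [tline.eventually htgt] with t ht
    have h1 : φ w + t • s ∈ (F : Set V) ∩ φ.target := ⟨F.add_mem (hMF w hwM hws) (F.smul_mem _ hs), ht⟩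
    rw [← hF] at h1
    obtain ⟨x, ⟨hx, hxs⟩, hxe⟩ := h1
    rw [← hxe, φ.left_inv hxs]
    exact connectedComponentIn_subset _ _ hx
  have hprod : ∀ᶠ t in 𝓝 (0 : ℝ), inner ℝ a (φ.symm (φ w + t • s)) * inner ℝ b (φ.symm (φ w + t • s)) = 0 := by
    filter_upwards [hq, tq.eventually hC] with t h1 h2
    exact (h2.1 h1).2
  have da : HasDerivAt (fun t : ℝ => inner ℝ a (φ.symm (φ w + t • s))) (inner ℝ a (u + v)) 0 :=
    ((innerSL ℝ a).hasFDerivAt).comp_hasDerivAt 0 dq
  have db : HasDerivAt (fun t : ℝ => inner ℝ b (φ.symm (φ w + t • s))) (inner ℝ b (u + v)) 0 :=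
    ((innerSL ℝ b).hasFDerivAt).comp_hasDerivAt 0 dq
  have ha' : inner ℝ a (u + v) ≠ 0 := by rw [inner_add_right, hau, zero_add]; exact hav
  have hb' : inner ℝ b (u + v) ≠ 0 := by rw [inner_add_right, hbv, add_zero]; exact hbu
  have ea := da.eventually_ne (c := 0) ha'
  have eb := db.eventually_ne (c := 0) hb'
  obtain ⟨t, h1, h2, h3⟩ := (ea.and (eb.and (hprod.filter_mono nhdsWithin_le_nhds))).exists
  rcases mul_eq_zero.1 h3 with h | h
  · exact h1 h
  · exact h2 h

end Pool.Agent.Q275.OP
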